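import Pool.Agent.Lib.MP_a51cbc_co.Upper
import Pool.Agent.Lib.MP_a51cbc_co.Lower

/-! MP_a51cbc_co: the game colouring number of the powers of forests.

For every `m ≥ 2` the supremum of `col_g (F ^ m)` over the finite forests `F` of maximum degree at
most `Δ` is `c_m Δ ^ ⌊m/2⌋ + O(Δ ^ (⌊m/2⌋ - 1))` with `c_m = 1` for even `m` and `c_m = 4` for
odd `m`. -/

namespace Pool.Agent.Results.MP_a51cbc_co.ForestPowers

open _root_.MP_a51cbc_co

/-- The leading constant. -/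
def lead (m : ℕ) : ℕ := if Even m then 1 else 4

theorem pow_le (k c h : ℕ) : (k + c) ^ (h + 1) ≤ k ^ (h + 1) + c * (h + 1) * (k + c) ^ h := by
  induction h with
  | zero => simp
  | succ h ih =>
    have e1 : (k + c) ^ (h + 1 + 1) = k * (k + c) ^ (h + 1) + c * (k + c) ^ (h + 1) := by ring
    have e2 : k * (k + c) ^ (h + 1) ≤ k * (k ^ (h + 1) + c * (h + 1) * (k + c) ^ h) :=
      Nat.mul_le_mul_left k ih
    have e3 : k * (k + c) ^ h ≤ (k + c) ^ (h + 1) := by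
      rw [pow_succ']
      exact Nat.mul_le_mul_right _ (Nat.le_add_right k c)
    have e4 : c * (h + 1) * (k * (k + c) ^ h) ≤ c * (h + 1) * (k + c) ^ (h + 1) :=
      Nat.mul_le_mul_left _ e3
    have e5 : k * (k ^ (h + 1) + c * (h + 1) * (k + c) ^ h) =
        k ^ (h + 1 + 1) + c * (h + 1) * (k * (k + c) ^ h) := by ring
    have e6 : c * (h + 1 + 1) * (k + c) ^ (h + 1) =
        c * (h + 1) * (k + c) ^ (h + 1) + c * (k + c) ^ (h + 1) := by ring
    omega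

/-- **Theorem.**  Let `m ≥ 2`.  There is a constant `C` such that for all `Δ ≥ 1`: every finite
forest `F` of maximum degree at most `Δ` has
`col_g (F ^ m) ≤ c_m Δ ^ ⌊m/2⌋ + C Δ ^ (⌊m/2⌋ - 1)`, and some finite forest `F` of maximum degree
at most `Δ` has `col_g (F ^ m) ≥ c_m Δ ^ ⌊m/2⌋ - C Δ ^ (⌊m/2⌋ - 1)`. -/
theorem result (m : ℕ) (hm : 2 ≤ m) : ∃ C : ℕ, ∀ Δ : ℕ, 1 ≤ Δ →
    (∀ (V : Type) (_ : Fintype V) (F : SimpleGraph V), F.IsAcyclic →
      (∀ v, (F.neighborSet v).ncard ≤ Δ) →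
      colg (power F m) ≤ lead m * Δ ^ (m / 2) + C * Δ ^ (m / 2 - 1)) ∧
    ∃ (V : Type) (_ : Fintype V) (F : SimpleGraph V), F.IsAcyclic ∧
      (∀ v, (F.neighborSet v).ncard ≤ Δ) ∧
      lead m * Δ ^ (m / 2) ≤ colg (power F m) + C * Δ ^ (m / 2 - 1) := by
  obtain ⟨h, hh⟩ : ∃ h, m = 2 * (h + 1) ∨ m = 2 * (h + 1) + 1 := ⟨m / 2 - 1, by omega⟩
  rcases hh with rfl | rfl
  · -- even powers
    have e1 : 2 * (h + 1) / 2 = h + 1 := by omega
    have e2 : lead (2 * (h + 1)) = 1 := if_pos ⟨h + 1, by ring⟩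
    rw [e1, e2, Nat.add_sub_cancel]
    refine ⟨3 * ((2 * (h + 1) + 1) * (h + 1)) + 1 + (h + 1), fun Δ hΔ => ⟨?_, ?_⟩⟩
    · intro V _ F hF hd
      have h1 := upper_even hF hΔ hd (h + 1)
      rw [Nat.add_sub_cancel] at h1
      have h2 : 1 ≤ Δ ^ h := Nat.one_le_pow _ _ hΔ
      have h3 : (3 * ((2 * (h + 1) + 1) * (h + 1)) + 1 + (h + 1)) * Δ ^ h =
          3 * ((2 * (h + 1) + 1) * (h + 1) * Δ ^ h) + Δ ^ h + (h + 1) * Δ ^ h := by ring
      rw [one_mul]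
      omega
    · obtain ⟨k, rfl⟩ : ∃ k, Δ = k + 1 := ⟨Δ - 1, by omega⟩
      obtain ⟨V, iV, F, hF, hd, hlow⟩ := lower_even k (h + 1)
      refine ⟨V, iV, F, hF, fun v => le_trans (hd v) (by omega), ?_⟩
      have h1 := pow_le k 1 h
      have h3 : (3 * ((2 * (h + 1) + 1) * (h + 1)) + 1 + (h + 1)) * (k + 1) ^ h =
          (3 * ((2 * (h + 1) + 1) * (h + 1)) + 1) * (k + 1) ^ h +
            1 * (h + 1) * (k + 1) ^ h := by ring
      rw [one_mul]
      omega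
  · -- odd powers
    have e1 : (2 * (h + 1) + 1) / 2 = h + 1 := by omega
    have e2 : lead (2 * (h + 1) + 1) = 4 := if_neg (by
      rintro ⟨r, hr⟩
      omega)
    rw [e1, e2, Nat.add_sub_cancel]
    refine ⟨3 * ((2 * (h + 1) + 2) * (h + 1)) + 1 + 24 * (h + 1), fun Δ hΔ => ⟨?_, ?_⟩⟩
    · intro V _ F hF hd
      have h1 := upper_odd hF hΔ hd (h + 1)
      rw [Nat.add_sub_cancel] at h1
      have h2 : 1 ≤ Δ ^ h := Nat.one_le_pow _ _ hΔ
      have h3 : (3 * ((2 * (h + 1) + 2) * (h + 1)) + 1 + 24 * (h + 1)) * Δ ^ h =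
          3 * ((2 * (h + 1) + 2) * (h + 1) * Δ ^ h) + Δ ^ h + 24 * (h + 1) * Δ ^ h := by ring
      omega
    · have hP : 1 ≤ Δ ^ h := Nat.one_le_pow _ _ hΔ
      by_cases hbig : Δ ≤ 6
      · refine ⟨PUnit, inferInstance, ⊥, SimpleGraph.isAcyclic_bot, ?_, ?_⟩
        · intro v
          have : (⊥ : SimpleGraph PUnit).neighborSet v = ∅ := by
            ext w
            simp
          rw [this, Set.ncard_empty]
          exact Nat.zero_le _
        · have h1 : Δ ^ (h + 1) ≤ 6 * Δ ^ h := by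
            rw [pow_succ']
            exact Nat.mul_le_mul_right _ hbig
          have h3 : (3 * ((2 * (h + 1) + 2) * (h + 1)) + 1 + 24 * (h + 1)) * Δ ^ h =
              (3 * ((2 * (h + 1) + 2) * (h + 1)) + 1 + 24 * h) * Δ ^ h + 24 * Δ ^ h := by ring
          omega
      · obtain ⟨k, rfl⟩ : ∃ k, Δ = k + 6 := ⟨Δ - 6, by omega⟩
        obtain ⟨V, iV, F, hF, hd, hlow⟩ := lower_odd k (h + 1) (by omega)
        refine ⟨V, iV, F, hF, fun v => le_trans (hd v) (by omega), ?_⟩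
        have h1 := pow_le k 6 h
        have h3 : (3 * ((2 * (h + 1) + 2) * (h + 1)) + 1 + 24 * (h + 1)) * (k + 6) ^ h =
            3 * ((2 * (h + 1) + 2) * (h + 1)) * (k + 6) ^ h + (k + 6) ^ h +
              4 * (6 * (h + 1) * (k + 6) ^ h) := by ring
        omega

end Pool.Agent.Results.MP_a51cbc_co.ForestPowers
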